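import Pool.Agent.X180.OK.Eq
import Pool.Agent.X325.OB.SmallTower

/-!
# Effective divisors of small numerical dimension on varieties with trivial canonical class, over
subvarieties of projective space

Let `X` be a normal projective variety with `K_X ~ 0` and `L` an effective `ℚ`-divisor on `X`. As only
the support of `L` matters in the conclusion, the coefficients of `L` may be taken `≥ 1`: then there are
no conditions on ramification along `L`. Let

  `X ⇢ W_l ⇢ ... ⇢ W_1 ⇢ W_0`, `l ≥ 0`,

be dominant rational maps. Suppose:

* (the base) `W_0` is any subvariety of `P^v`, of dimension `D 0`, and `ℓ i = 0`, `i < q`, are hyperplanes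
  in general position which do not contain `W_0`, such that the points `ℓ i` impose independent
  conditions on the forms of degree `d`, with weights `wt i ≥ 0` whose sum is at least `(D 0 + 1) γ`,
  `γ = (v - D 0 + d).choose (v - D 0)`; if `μ i` are the multiplicities of the hyperplanes `ℓ i = 0` at
  a prime divisor `P` of `X` (for the divisors without fixed component which the map defines), not all
  zero, then `min (#{i | μ i ≠ 0}) γ ≤ γ L P + ∑ i, (1 - wt i) μ i`, where `L P` is the coefficient of
  `P` in `L`. In the borderline case, when the sum of the weights is equal to `(D 0 + 1) γ`, the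
  inequality is strict if the multiplicity `μ k0` of one distinguished hyperplane is positive. (The
  condition is void at the components of `L`, if their coefficients are large. If `W_0 = P^{D 0}` then
  `γ = 1`.)
* (the steps of the tower) for each `i < l` the fibres of `W_{i+1}` over `W_i`, of dimension `e_i`,
  *with the boundary and the multiplicities of the fibres of `(X, L)` over `W_{i+1}`*, correspond to the
  product of one orbifold `V_i` (which does not depend on the point of `W_i`) and of moving log
  canonical arrangements: there are a variety `X'` with a generically finite map `X' ⇢ X` (ramified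
  anywhere) and a rational map of `X'` to `V_i × P^{r_1} × ... × P^{r_c}`, `r_j ≥ 1`, which is dominant
  on the fibres of `X'` over `W_i`, and whose fibres (over `W_i`) are, up to finite maps, the fibres of
  `X' ⇢ W_{i+1}`; `a (p) ≥ 0` is the log discrepancy of an orbifold divisor at the places `p` of `V_i`
  in the image of the prime divisors of `X` (`a (p) = 0` is allowed: logarithmic poles), and the
  Kodaira dimension of `(V_i, a)` is at least `h_i`; in each `P^{r_j}` there are any hyperplanes
  `A j k = 0`, in any position, which move with the point of a variety finite over `W_i`, with weights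
  `w j k ≥ 0`, such that the arrangement is log canonical (the sum of the weights of hyperplanes with a
  common point is at most the codimension of their intersection) and `∑ k, w j k ≥ r_j + 1`. Let `Q` be
  a place of the function field of `X'` over a prime divisor `P` of `X` with `L P < 1` which dominates
  `W_i` but not `W_{i+1}`, with ramification index `ε`, let `e j k` be the multiplicities of the
  hyperplanes at `Q`, and `R = ∑ (mx_j - ∑ w j k e j k)`, where `mx_j` is the greatest sum of `r_j + 1`
  of the `e j k` whose hyperplanes have no common point. Then `ε (1 - L P) ≤ ν a (p) + R` if `Q` lies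
  over the place `p` of `V_i`, with ramification index `ν`; and if `Q` dominates `V_i` then
  `ε (1 - L P) ≤ R`, or `ε (1 - L P) ≤ 1` if all `e j k` are zero. Let `λ_i` be the sum of `h_i` and of
  the `r_j` with `∑ k, w j k > r_j + 1`.
* (the fibres of `X` over `W_l`) there is a correspondence `X'` as above between `X` and a relative
  product `P^{r_1} × ... × P^{r_c}` over `W_l` (`c = 0` is allowed), with log canonical moving hyperplane
  arrangements with weights in `[0, 1]` (with any sum) and `ε (1 - L P) ≤ R` (`ε (1 - L P) ≤ 1`, if all
  `e j k` are zero) at the prime divisors `P` of `X` with `L P < 1` which dominate `W_l`; and at the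
  places over the prime divisors of the product `K_X + L` is at most the pull back of the log
  canonical divisor of the arrangement (`Cor`). Let `λ` be the sum of the `r_j` with
  `∑ k, w j k > r_j + 1`. (For instance the fibres may be isogenous to products of elliptic curves,
  which are double covers of `P^1` with four branch points: here `∑ k, w j k = r_j + 1` for all `j`,
  and `λ = 0`.)

Let `p` be a natural number with `p ≤ dim W_0 + ∑ λ_i + λ`. Then `∑ k, w j k ≥ r_j + 1` for all `j` (for the
fibres over `W_l`), and

  `κ(L') = ν(L') = p`

for all effective `ℚ`-divisors `L'` with `Supp L' = Supp L` and `ν(L') ≤ p`.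

Relation with the question: let `X` be a projective primitive symplectic variety of dimension `2 p`,
and let `L'` be a movable line bundle with `q(L') = 0`, `L' ≠ 0`, some multiple of which has a section
with the support of `L`, and with `ν(L') ≤ p` (for instance if `L'` is nef on some `ℚ`-factorial
symplectic birational model, by Fujiki's relation). By the theorem `κ(L') = p`: the multiples of `L'`
define a rational map onto a variety of dimension `p`, which is the expected rational Lagrangian
fibration. Neither `L'` nor the maps of the tower are assumed to have any other property.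

Notation: `X` is given by the homogeneous coordinates `y` of its generic point, with values in the
function field `K`; prime divisors are places `P` of `K`, `P.ord` is the order along `P`. `E i` is the
function field of `W_i`. `iitakaDim` and `nuDim` are the literal definitions of the Iitaka and of the
numerical dimension of a divisor by means of the dimensions of the spaces of sections of `m L'` and of
`m L' + A`. Definitions: `Pool/Agent/X180/OJ/Defs` (`JointFibres`, `IsTower`), `OK/Defs`
(`TorsionCanonical`, `SameSupport`, `iitakaDim`, `nuDim`), `OP/Defs`; `Independent`, `GeneralPosition`: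
`Pool/Agent/Y172`.

Proof: the forms of a step are products of the pull backs of the forms of `V_i`, of determinants of
logarithmic derivatives of the linear forms, and of one joint Wronskian of the coordinates of `V_i` and
of the `P^{r_j}`; locally, at `Q`, one compares with the arrangement enlarged by a simplex of
logarithmic coordinates of `V_i` at `p` (`Pool.Agent.X180.OJ.joint_est`). The coefficients are
algebraic over the function field of `W_{i+1}`, and their norms are estimated at the prime divisors of
`X` (`Pool.Agent.X180.OJ.joint_part`). The forms of the steps and of the base are multiplied along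
adapted regular vector fields, and with powers of the canonical form without zeros, which gives the
lower bound for `κ(L')`; and `κ(L') ≤ ν(L') ≤ p` (`Pool.Agent.X180.OK.iso_tow`).
-/

set_option autoImplicit false

open FF Pool.Agent.W602.GT Pool.Agent.Y172 Pool.Agent.Y191
open Pool.Agent.X180.OP (Fibres big)
open Pool.Agent.X180.OJ (IsTower)
open Pool.Agent.X180.OK

namespace Pool.Agent.Results.MP_e4ecdb_ag.DivisorsOverSubvarieties

/-- The function field of the image of the rational map with the coordinates `b j`. -/
noncomputable def ImageField {K : Type} [Field K] [Algebra ℂ K] {v : ℕ} (b : Fin (v + 1) → K) :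
    IntermediateField ℂ K :=
  IntermediateField.adjoin ℂ {f : K | ∃ i j, b j ≠ 0 ∧ f = b i / b j}

/-- The `b j` are the coordinates of a rational map whose image has dimension `p` and is not
contained in one of the hyperplanes `ℓ i = 0`. -/
def IsMap {K : Type} [Field K] [Algebra ℂ K] {v q : ℕ} (ℓ : Fin q → Fin (v + 1) → ℂ)
    (b : Fin (v + 1) → K) (p : ℕ) : Prop :=
  (∀ i, ∑ j, algebraMap ℂ K (ℓ i j) * b j ≠ 0) ∧ (∃ j, b j ≠ 0) ∧
    Algebra.trdeg ℂ (ImageField b) = p

/-- The multiplicities over the base, at the prime divisors `P ∈ S` of `X`: if the hyperplanes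
`ℓ i = 0` have the multiplicities `μ i` at `P`, not all zero, then
`min (#{i | μ i ≠ 0}) γ ≤ γ L P + ∑ i, (1 - wt i) μ i`, with strict inequality if the sum of the weights
is `p * γ` and the multiplicity of the distinguished hyperplane `k0` is positive. -/
def Multiplicities {K : Type} [Field K] [Algebra ℂ K] {v q : ℕ} (S : Set (Place ℂ K))
    (L : Place ℂ K → ℚ) (ℓ : Fin q → Fin (v + 1) → ℂ) (b : Fin (v + 1) → K) (wt : Fin q → ℚ)
    (p γ : ℕ) (k0 : Fin q) : Prop :=
  ∀ P ∈ S, ∀ (a : ℤ) (μ : Fin q → ℕ), MOrd P (fun k j => algebraMap ℂ K (ℓ k j)) b a μ → μ ≠ 0 →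
    ((min (Finset.univ.filter fun i => μ i ≠ 0).card γ : ℕ) : ℚ) ≤
      γ * L P + ∑ i, (1 - wt i) * μ i ∧
    (((p * γ : ℕ) : ℚ) = ∑ i, wt i → μ k0 ≠ 0 →
      ((min (Finset.univ.filter fun i => μ i ≠ 0).card γ : ℕ) : ℚ) <
        γ * L P + ∑ i, (1 - wt i) * μ i)

/-- **Abundance for divisors of small numerical dimension.** Let `ℓ i = 0` be hyperplanes in `P^v` in
general position which impose independent conditions on the forms of degree `d ≥ 1`. Let `X` be a normal
projective variety with `K_X ~ 0`, `L` an effective `ℚ`-divisor, `b` the coordinates of a rational map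
`X ⇢ P^v` whose image is the bottom `W_0`, of dimension `D 0`, not contained in a hyperplane
`ℓ i = 0`, of a tower `X ⇢ W_l ⇢ ... ⇢ W_0` of dominant rational maps whose steps, with the boundary
`L`, are as in `JointFibres`, of dimensions `e i` and log Kodaira dimensions `lam i`. Let `wt i ≥ 0` be
weights whose sum is at least `(D 0 + 1) * γ`, where `γ = (v - D 0 + d).choose (v - D 0)`, such that the
condition `Multiplicities` holds, and let the fibres of `X` over `W_l` be as in `Fibres`. Let
`p ≤ D 0 + ∑ i, lam i + big`. Then `r j + 1 ≤ ∑ i, w j i` for all `j`, and for all effective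
`ℚ`-divisors `L'` with the same support as `L` whose numerical dimension is at most `p`, the Iitaka
dimension and the numerical dimension are `p`, and `D 0 + ∑ i, lam i + big = p`. -/
theorem result {v q d : ℕ} (hd : 0 < d) (ℓ : Fin q → Fin (v + 1) → ℂ) (hI : Independent d ℓ)
    (hg : GeneralPosition ℓ) (hq : v + 1 ≤ q) (K : Type) [Field K] [Algebra ℂ K]
    (N l c p : ℕ) (E : Fin (l + 1) → IntermediateField ℂ K) (D : Fin (l + 1) → ℕ)
    (e lam : Fin l → ℕ) (r s : Fin c → ℕ) (y : Fin (N + 1) → K) (L : Place ℂ K → ℚ)
    (hy : NormalModel y) (hn : Algebra.trdeg ℂ K = (D (Fin.last l) + ∑ j, r j : ℕ))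
    (hK : TorsionCanonical y (D (Fin.last l) + ∑ j, r j) 1) (hL : Effective y L)
    (b : Fin (v + 1) → K) (hb : IsMap ℓ b (D 0)) (hE0 : E 0 = ImageField b)
    (wt : Fin q → ℚ) (hwt : ∀ i, 0 ≤ wt i)
    (hs : (((D 0 + 1) * (v - D 0 + d).choose (v - D 0) : ℕ) : ℚ) ≤ ∑ i, wt i) (k0 : Fin q)
    (hm : Multiplicities {P | IsPrimeDivisor y P} L ℓ b wt (D 0 + 1)
      ((v - D 0 + d).choose (v - D 0)) k0)
    (hT : IsTower {P | IsPrimeDivisor y P} (fun P => (L P : ℝ)) E D e lam)
    (w : ∀ j, Fin (s j) → ℚ)
    (hF : Fibres y (D (Fin.last l) + ∑ j, r j) L {P | IsPrimeDivisor y P ∧ L P < 1}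
      (E (Fin.last l)) r s w)
    (hp : p ≤ D 0 + ∑ i, lam i + big r s w) :
    (∀ j, (r j + 1 : ℚ) ≤ ∑ i, w j i) ∧ ∀ L', SameSupport y L L' →
      (∀ A, Effective y A → Integral y A → nuDim y L' A ≤ (p : EReal)) →
      D 0 + ∑ i, lam i + big r s w = p ∧ iitakaDim y L' = (p : WithBot ℕ) ∧
      ∀ A, Effective y A → Integral y A → nuDim y L' A = (p : EReal) := by
  have hn' : D (Fin.last l) + ∑ j, r j = D 0 + (∑ i, e i + ∑ j, r j) := by
    rw [Pool.Agent.X180.TP.dims fun i => (hT.2 i).2.1, add_assoc]
  have hE0' : E 0 = RF ℂ b := hE0
  have hK' : Algebra.trdeg ℂ K = (D 0 + (∑ i, e i + ∑ j, r j) : ℕ) := by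
    rw [← hn', hn]
  refine iso_tow hy hn hK hL hT hF (fun lam' h0 => ?_) hp
  rw [hE0'] at h0
  have h1 := Pool.Agent.X325.OB.small_pair (Δ := L) hd hI hg hq hy hb.1 hb.2.1
    (by rw [← hE0']; exact hT.1 0) hK' (fun P hP => hP) (fun P hP => hL.1 P hP) hwt hs
    (fun P hP a μ ho hμ => (hm P hP a μ (Pool.Agent.X325.OB.mord_ord ho) hμ).1) h0
  exact h1.2 k0 fun heq P hP a μ ho hμ =>
    (hm P hP a μ (Pool.Agent.X325.OB.mord_ord ho) (fun h => hμ (by rw [h]; rfl))).2 heq hμ

end Pool.Agent.Results.MP_e4ecdb_ag.DivisorsOverSubvarieties
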