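import Pool.Agent.X302.TB.Ample

set_option autoImplicit false

/-!
# The rational SYZ conjecture for primitive symplectic varieties fails for torsion line bundles

There is a projective primitive symplectic variety `X = ℂ⁴ / Γ` with a line bundle `L` of order two:
`L ⊗ L ≅ O_X` but `L ≇ O_X`.  This `L` is a nontrivial line bundle whose Chern form is zero, so it is
nef, hence movable, and `q_X(L) = 0`.  Every power of `L` has at most one section up to scalars: the
linear system `|L^k|` is empty or a point for every `k`, and the map that it defines is nowhere defined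
or constant.  So `L` induces no rational map onto a variety of positive dimension, in particular no
rational Lagrangian fibration.  The statement of Q1 is false as it is posed; one has to ask that `L`
is not torsion.

`Γ` consists of the maps `v ↦ g v + c(g) + u`, `u` a vector of Gaussian integers and `g` an element of
the dihedral group of order eight generated by `s (x₁,x₂,y₁,y₂) = (x₁,-x₂,y₂,y₁)` and
`t (x₁,x₂,y₁,y₂) = (x₂,x₁,y₁,-y₂)`, with `c(s) = (1/2,1/2,0,0)` and `c(t) = (0,0,1/2,1/2)`.  No element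
of `Γ` whose linear part is a reflection of the dihedral group has a fixed point.

`latt`, `IsTorusQuotient`, `IsForm`, `IsPrimitiveSymplectic`, `LineBundle`, `LineBundle.pow`,
`LineBundle.IsSection` and `LineBundle.IsTrivial` are defined in `Pool.Agent.W594.SYZ.Defs2`;
`IsHermitian`, `IsChernForm`, `IsNefForm`, `IsPositiveForm` and `IsDegenerateForm` in
`Pool.Agent.W594.SYZ.TQDefs`.
-/

namespace Pool.Agent.Results.MP_e4ecdb_ag.TorsionBundle

open Pool.Agent.W594.SYZ2

/-- There is a primitive symplectic variety `X = ℂ⁴ / Γ` that carries a positive line bundle `A`, and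
a line bundle `L` on `X` which is nontrivial, has trivial square, is nef with `q_X(L) = 0` (its Chern
form is zero), such that for every `m` any two sections of `L^m` are proportional, and `L^m` has no
nonzero section at all if `m` is odd. -/
theorem result : ∃ (Γ : Subgroup ((Fin 4 → ℂ) ≃ᵃ[ℂ] (Fin 4 → ℂ))) (L A : LineBundle Γ)
    (H : (Fin 4 → ℂ) → (Fin 4 → ℂ) → ℂ),
    IsPrimitiveSymplectic Γ ∧ IsChernForm A H ∧ IsPositiveForm H ∧
    ¬ L.IsTrivial ∧ (L.pow 2).IsTrivial ∧
    IsChernForm L (fun _ _ => 0) ∧ IsNefForm (fun _ _ : Fin 4 → ℂ => (0 : ℂ)) ∧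
    IsDegenerateForm (fun _ _ : Fin 4 → ℂ => (0 : ℂ)) ∧
    (∀ (m : ℕ) (s t : (Fin 4 → ℂ) → ℂ), (L.pow m).IsSection s → (L.pow m).IsSection t →
      t 0 • s = s 0 • t) ∧
    ∀ (m : ℕ) (s : (Fin 4 → ℂ) → ℂ), Odd m → (L.pow m).IsSection s → s = 0 := by
  refine ⟨Pool.Agent.X302.TB.Γ, Pool.Agent.X302.TB.L, Pool.Agent.X302.TB.A, _,
    Pool.Agent.X302.TB.isPrimitiveSymplectic, Pool.Agent.X302.TB.A_chern,
    Pool.Agent.X302.TB.A_pos, Pool.Agent.X302.TB.not_trivial, Pool.Agent.X302.TB.sq_trivial,
    Pool.Agent.X302.TB.chern_zero, Pool.Agent.X302.TB.nef_zero,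
    Pool.Agent.X302.TB.degenerate_zero, fun m s t hs ht => ?_, fun m s hm hs => ?_⟩
  · funext v
    rw [Pi.smul_apply, Pi.smul_apply, smul_eq_mul, smul_eq_mul,
      Pool.Agent.X302.TB.sec_const m s hs v 0, Pool.Agent.X302.TB.sec_const m t ht v 0, mul_comm]
  · obtain ⟨g, hg, s1, -⟩ := Pool.Agent.X302.TB.exists_s
    have h1 := hs.eq ⟨g, hg⟩ 0
    have h2 : (Pool.Agent.X302.TB.L.pow m).e ⟨g, hg⟩ 0 = -1 := by
      change Pool.Agent.X302.TB.L.e ⟨g, hg⟩ 0 ^ m = -1
      have h3 : Pool.Agent.X302.TB.L.e ⟨g, hg⟩ 0 = -1 := by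
        rw [Pool.Agent.X302.TB.L_e, Pool.Agent.X302.TB.dc, s1, s1]
        simp
      rw [h3, hm.neg_one_pow]
    rw [h2, Pool.Agent.X302.TB.sec_const m s hs _ 0] at h1
    funext v
    rw [Pool.Agent.X302.TB.sec_const m s hs v 0, Pi.zero_apply]
    linear_combination h1 / 2

end Pool.Agent.Results.MP_e4ecdb_ag.TorsionBundle
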